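import Pool.Agent.Work.MP_1c91cf_gt.Bd.B06
import Pool.Agent.Work.MP_1c91cf_gt.Bd.B04

/-!
# The bellows theorem for bounded polyhedra in hyperbolic spaces
-/

set_option autoImplicit false
set_option linter.unusedSectionVars false

open Matrix MeasureTheory Set Filter
open scoped ContDiff Topology

namespace Pool.Agent.Work.MP_1c91cf_gt

open Classical

lemma one_sub_sum_pos {N : ℕ} {x : Fin N → ℝ} (hx : ∑ j, (x j) ^ 2 < 1) :
    0 < 1 - ∑ j, (x j) ^ 2 := by linarith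

lemma fut_hyp {N : ℕ} {x : Fin N → ℝ} (hx : ∑ j, (x j) ^ 2 < 1) : Fut (hyp x) := by
  have h1 := one_sub_sum_pos hx
  have h2 := Real.sqrt_pos.2 h1
  refine ⟨?_, ?_⟩
  · rw [lor_hyp]
    have h3 : ∑ j, x j * x j = ∑ j, (x j) ^ 2 := Finset.sum_congr rfl fun j _ => (sq _).symm
    have h4 := Real.mul_self_sqrt h1.le
    rw [h3]
    field_simp
    rw [sq, h4]
    ring
  · unfold hyp
    rw [Pi.smul_apply, Fin.cons_zero, smul_eq_mul, mul_one]
    exact one_div_pos.2 h2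

lemma lor_hyp_sq {N : ℕ} {x y : Fin N → ℝ} (hx : ∑ j, (x j) ^ 2 < 1) (hy : ∑ j, (y j) ^ 2 < 1) :
    (lor (hyp x) (hyp y)) ^ 2 =
      (1 - ∑ j, x j * y j) ^ 2 / ((1 - ∑ j, (x j) ^ 2) * (1 - ∑ j, (y j) ^ 2)) := by
  have h1 := one_sub_sum_pos hx
  have h2 := one_sub_sum_pos hy
  have h3 := Real.sq_sqrt h1.le
  have h4 := Real.sq_sqrt h2.le
  rw [lor_hyp, mul_pow, mul_pow, div_pow, div_pow, h3, h4]
  field_simp
  ring

lemma lor_hyp_eq {N : ℕ} {x y x' y' : Fin N → ℝ} (hx : ∑ j, (x j) ^ 2 < 1)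
    (hy : ∑ j, (y j) ^ 2 < 1) (hx' : ∑ j, (x' j) ^ 2 < 1) (hy' : ∑ j, (y' j) ^ 2 < 1)
    (h : (1 - ∑ j, x j * y j) ^ 2 / ((1 - ∑ j, (x j) ^ 2) * (1 - ∑ j, (y j) ^ 2)) =
      (1 - ∑ j, x' j * y' j) ^ 2 / ((1 - ∑ j, (x' j) ^ 2) * (1 - ∑ j, (y' j) ^ 2))) :
    lor (hyp x) (hyp y) = lor (hyp x') (hyp y') := by
  rw [← lor_hyp_sq hx hy, ← lor_hyp_sq hx' hy'] at h
  have h1 := (fut_hyp hx).lor_neg (fut_hyp hy)
  have h2 := (fut_hyp hx').lor_neg (fut_hyp hy')
  rcases sq_eq_sq_iff_eq_or_eq_neg.1 h with h3 | h3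
  · exact h3
  · linarith

lemma continuous_hyp {N : ℕ} {p : ℝ → Fin N → ℝ} (hp : Continuous p)
    (hb : ∀ t, ∑ j, (p t j) ^ 2 < 1) : Continuous fun t => hyp (p t) := by
  have h1 : Continuous fun t => (1 / Real.sqrt (1 - ∑ j, (p t j) ^ 2) : ℝ) := by
    refine Continuous.div continuous_const ?_ ?_
    · refine Real.continuous_sqrt.comp ?_
      refine continuous_const.sub (continuous_finsetSum _ fun j _ => ?_)
      exact ((continuous_apply j).comp hp).pow 2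
    · intro t
      exact (Real.sqrt_pos.2 (one_sub_sum_pos (hb t))).ne'
  have h2 : Continuous fun t => (Fin.cons 1 (p t) : Fin (N + 1) → ℝ) := by
    rw [continuous_pi_iff]
    intro i
    refine Fin.cases ?_ (fun j => ?_) i
    · simpa using continuous_const
    · simp only [Fin.cons_succ]
      exact (continuous_apply j).comp hp
  exact h1.smul h2

/-- The bellows theorem. -/
theorem bellows {q m : ℕ} (hq : 1 ≤ q) (c : (Fin (q + 1 + 1) → Fin m) → ℤ)
    (hc : ∀ f : (Fin (q + 1) → Fin m) → ℤ,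
      (∀ (τ : Fin (q + 1) → Fin m) (π : Equiv.Perm (Fin (q + 1))),
          f (τ ∘ ⇑π) = ((Equiv.Perm.sign π : ℤˣ) : ℤ) * f τ) →
      ∑ σ : Fin (q + 1 + 1) → Fin m,
          c σ * ∑ i : Fin (q + 1 + 1), (-1 : ℤ) ^ (i : ℕ) * f (σ ∘ Fin.succAbove i) = 0)
    (p : ℝ → Fin m → (Fin (q + 1 + 1) → ℝ)) (hp : Continuous p)
    (hb : ∀ (t : ℝ) (v : Fin m), ∑ j, (p t v j) ^ 2 < 1)
    (hedge : ∀ σ : Fin (q + 1 + 1) → Fin m, c σ ≠ 0 → ∀ (a b : Fin (q + 1 + 1)) (s t : ℝ),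
      (1 - ∑ j, p s (σ a) j * p s (σ b) j) ^ 2 /
          ((1 - ∑ j, (p s (σ a) j) ^ 2) * (1 - ∑ j, (p s (σ b) j) ^ 2)) =
      (1 - ∑ j, p t (σ a) j * p t (σ b) j) ^ 2 /
          ((1 - ∑ j, (p t (σ a) j) ^ 2) * (1 - ∑ j, (p t (σ b) j) ^ 2)))
    (s t : ℝ) :
    ∑ σ : Fin (q + 1 + 1) → Fin m, (c σ : ℝ) *
        Real.sign (Matrix.det (Matrix.of (fun i j => p s (σ i) j))) *
        ((hypMeasure (q + 1))
          (convexHull ℝ (insert 0 (Set.range (fun i => p s (σ i)))))).toReal =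
    ∑ σ : Fin (q + 1 + 1) → Fin m, (c σ : ℝ) *
        Real.sign (Matrix.det (Matrix.of (fun i j => p t (σ i) j))) *
        ((hypMeasure (q + 1))
          (convexHull ℝ (insert 0 (Set.range (fun i => p t (σ i)))))).toReal := by
  let C : RealConf q m :=
    { y0 := fun v => hyp (p 0 v)
      fut := fun v => fut_hyp (hb 0 v)
      C := altC c
      alt := fun G π => altC_alt c G π
      cyc := fun F => altC_cyc c hc F }
  have hX : ∀ t, InX C (fun v => hyp (p t v)) := by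
    intro t
    refine ⟨fun v => fut_hyp (hb t v), fun G hG a b => ?_⟩
    obtain ⟨π, hπ⟩ : ∃ π : Equiv.Perm (Fin (q + 1 + 1)), c (G ∘ π) ≠ 0 := by
      by_contra hcon
      push Not at hcon
      apply hG
      show altC c G = 0
      unfold altC
      simp [hcon]
    have h1 := hedge (G ∘ π) hπ (π.symm a) (π.symm b) t 0
    simp only [Function.comp_apply, Equiv.apply_symm_apply] at h1
    exact lor_hyp_eq (hb t _) (hb t _) (hb 0 _) (hb 0 _) h1
  have hcont : Continuous fun t => (fun v => hyp (p t v)) := by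
    rw [continuous_pi_iff]
    intro v
    exact continuous_hyp ((continuous_apply v).comp hp) (fun t => hb t v)
  have h1 := path_const (c := C) hq hcont hX s t
  have h2 := frozen_sum_eq c (p s) (hb s)
  have h3 := frozen_sum_eq c (p t) (hb t)
  have h4 : VV (altC c) (fun v => hyp (p s v)) = VV (altC c) (fun v => hyp (p t v)) := h1
  rw [← h2, ← h3] at h4
  have h5 : radialConst (q + 1) * ((q + 1 + 1).factorial : ℝ) ≠ 0 :=
    mul_ne_zero (radialConst_pos _).ne' (by exact_mod_cast (Nat.factorial_pos _).ne')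
  exact mul_right_cancel₀ h5 h4

end Pool.Agent.Work.MP_1c91cf_gt
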